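import Pool.Agent.Work.MP_d88d93_co.BridgeB

namespace Pool.Agent.Results.MP_d88d93_co.AboveThird

/-- Some constant strictly larger than one third is admissible in the weak Dirac problem. -/
theorem result : ∃ c : ℝ, 1 / 3 < c ∧ ∃ N : ℕ, ∀ S : Finset (EuclideanSpace ℝ (Fin 2)),
    N ≤ S.card → ¬ Collinear ℝ (S : Set (EuclideanSpace ℝ (Fin 2))) →
    ∃ p ∈ S, c * (S.card : ℝ) ≤
      (Set.ncard {ℓ : AffineSubspace ℝ (EuclideanSpace ℝ (Fin 2)) |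
        p ∈ ℓ ∧ ∃ a ∈ S, ∃ b ∈ S, a ≠ b ∧ ℓ = affineSpan ℝ {a, b}} : ℝ) :=
  Pool.Agent.Work.MP_d88d93_co.dirac

end Pool.Agent.Results.MP_d88d93_co.AboveThird
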