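import Pool.Agent.Work.MP_d88d93_co.Four.Main

namespace Pool.Agent.Results.MP_d88d93_co.FourLines

/-- A noncollinear set of `n ≥ 5` points covered by four concurrent or four parallel lines has a
point on at least `(n - 1) / 2` connecting lines. -/
theorem result (S : Finset (EuclideanSpace ℝ (Fin 2))) (h5 : 5 ≤ S.card)
    (hS : ¬ Collinear ℝ (S : Set (EuclideanSpace ℝ (Fin 2))))
    (h : (∃ (O : EuclideanSpace ℝ (Fin 2)) (v : Fin 4 → EuclideanSpace ℝ (Fin 2)),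
        ∀ p ∈ S, ∃ (i : Fin 4) (s : ℝ), p = O + s • v i) ∨
      ∃ (w : EuclideanSpace ℝ (Fin 2)) (o : Fin 4 → EuclideanSpace ℝ (Fin 2)), w ≠ 0 ∧
        ∀ p ∈ S, ∃ (i : Fin 4) (s : ℝ), p = o i + s • w) :
    ∃ p ∈ S, S.card ≤ 2 * Set.ncard {ℓ : AffineSubspace ℝ (EuclideanSpace ℝ (Fin 2)) |
      p ∈ ℓ ∧ ∃ a ∈ S, ∃ b ∈ S, a ≠ b ∧ ℓ = affineSpan ℝ {a, b}} + 1 := by
  rcases h with ⟨O, v, h⟩ | ⟨w, o, hw, h⟩
  · exact Pool.Agent.Work.MP_d88d93_co.Four.concurrent S h5 hS O v h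
  · exact Pool.Agent.Work.MP_d88d93_co.Four.parallel S h5 hS w hw o h

end Pool.Agent.Results.MP_d88d93_co.FourLines
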